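import Pool.Agent.Q280.GC.Psd

set_option autoImplicit false

/-! Job GC6: the vector central limit theorem for counts. -/

namespace Pool.Agent.Q280.GC

open Finset MeasureTheory ProbabilityTheory Filter Topology Pool.Agent.Q145.GC

open scoped Classical

/-! ### limits of powers -/

theorem pow_lim {K : ℕ → ℕ} {z : ℕ → ℂ} {w : ℂ} (hK : Tendsto K atTop atTop)
    (h : Tendsto (fun j => (K j : ℂ) * z j) atTop (𝓝 w)) :
    Tendsto (fun j => (1 + z j) ^ (K j)) atTop (𝓝 (Complex.exp w)) := by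
  have hKc : Tendsto (fun j => ((K j : ℂ))⁻¹) atTop (𝓝 0) := by
    have h1 : Tendsto (fun j => ((K j : ℝ))⁻¹) atTop (𝓝 0) :=
      tendsto_inv_atTop_zero.comp (tendsto_natCast_atTop_atTop.comp hK)
    have h2 := (Complex.continuous_ofReal.tendsto 0).comp h1
    refine h2.congr' (Eventually.of_forall fun j => ?_) |>.trans (by simp)
    simp
  have hz : Tendsto z atTop (𝓝 0) := by
    have h1 := h.mul hKc
    rw [mul_zero] at h1
    refine h1.congr' ?_
    filter_upwards [hK.eventually_ge_atTop 1] with j hj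
    have : (K j : ℂ) ≠ 0 := by
      have : K j ≠ 0 := by omega
      exact_mod_cast this
    field_simp
  have hO := Complex.log_sub_self_isBigO.comp_tendsto hz
  have hO2 : (fun j => (K j : ℂ) * (Complex.log (1 + z j) - z j)) =O[atTop]
      fun j => (K j : ℂ) * (z j) ^ 2 := (Asymptotics.isBigO_refl _ _).mul hO
  have h3 : Tendsto (fun j => (K j : ℂ) * (z j) ^ 2) atTop (𝓝 0) := by
    have := h.mul hz
    rw [mul_zero] at this
    refine this.congr fun j => ?_
    ring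
  have h4 := hO2.trans_tendsto h3
  have h5 : Tendsto (fun j => (K j : ℂ) * Complex.log (1 + z j)) atTop (𝓝 w) := by
    have := h4.add h
    rw [zero_add] at this
    refine this.congr fun j => ?_
    ring
  have h6 := (Complex.continuous_exp.tendsto w).comp h5
  refine h6.congr' ?_
  have hne : ∀ᶠ j in atTop, z j ≠ -1 := hz.eventually_ne (by simp)
  filter_upwards [hne] with j hj
  have : 1 + z j ≠ 0 := by
    intro h0
    apply hj
    linear_combination h0
  simp only [Function.comp_apply]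
  rw [Complex.exp_nat_mul, Complex.exp_log this]

theorem exp_lim {K : ℕ → ℕ} (hK : Tendsto K atTop atTop) (y : ℝ) :
    Tendsto (fun j => (K j : ℂ) * (Complex.exp ((y / √(K j : ℝ) : ℝ) * Complex.I) - 1 -
      (y / √(K j : ℝ) : ℝ) * Complex.I)) atTop (𝓝 (-(y : ℂ) ^ 2 / 2)) := by
  have hs : Tendsto (fun j => √(K j : ℝ)) atTop atTop :=
    Real.tendsto_sqrt_atTop.comp (tendsto_natCast_atTop_atTop.comp hK)
  have hr : Tendsto (fun j => |y| / √(K j : ℝ)) atTop (𝓝 0) := tendsto_const_nhds.div_atTop hs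
  rw [tendsto_iff_norm_sub_tendsto_zero]
  have hb : Tendsto (fun j => |y| ^ 2 * (|y| / √(K j : ℝ))) atTop (𝓝 0) := by
    have := hr.const_mul (|y| ^ 2)
    rwa [mul_zero] at this
  refine squeeze_zero' (Eventually.of_forall fun j => norm_nonneg _) ?_ hb
  filter_upwards [hr.eventually_le_const (show (0:ℝ) < 1 by norm_num), hK.eventually_ge_atTop 1]
    with j hj hj1
  have hKpos : (0:ℝ) < K j := by exact_mod_cast hj1
  have hsp : 0 < √(K j : ℝ) := Real.sqrt_pos.2 hKpos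
  set u : ℂ := (y / √(K j : ℝ) : ℝ) * Complex.I with hu
  have hun : ‖u‖ = |y| / √(K j : ℝ) := by
    rw [hu, norm_mul, Complex.norm_I, mul_one, Complex.norm_real, Real.norm_eq_abs, abs_div,
      abs_of_pos hsp]
  have hKu : (K j : ℂ) * u ^ 2 = -(y : ℂ) ^ 2 := by
    rw [hu, mul_pow, Complex.I_sq]
    have h1 : ((y / √(K j : ℝ) : ℝ) : ℂ) ^ 2 = (((y / √(K j : ℝ)) ^ 2 : ℝ) : ℂ) := by push_cast; rfl
    rw [h1, div_pow, Real.sq_sqrt hKpos.le]
    have h2 : (K j : ℂ) = ((K j : ℝ) : ℂ) := by push_cast; rfl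
    rw [h2, ← mul_assoc, ← Complex.ofReal_mul]
    have h3 : (K j : ℝ) * (y ^ 2 / (K j : ℝ)) = y ^ 2 := by field_simp
    rw [h3]
    push_cast
    ring
  have hb1 := Complex.exp_bound (x := u) (by rw [hun]; exact hj) (n := 3) (by norm_num)
  have e1 : ∑ m ∈ range 3, u ^ m / (m.factorial : ℂ) = 1 + u + u ^ 2 / 2 := by
    simp [Finset.sum_range_succ, Nat.factorial]
  rw [e1] at hb1
  have e2 : (K j : ℂ) * (Complex.exp u - 1 - u) - -(y : ℂ) ^ 2 / 2 =
      (K j : ℂ) * (Complex.exp u - (1 + u + u ^ 2 / 2)) := by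
    have : -(y : ℂ) ^ 2 / 2 = (K j : ℂ) * (u ^ 2 / 2) := by rw [← mul_div_assoc, hKu]
    rw [this]
    ring
  rw [e2, norm_mul]
  have hKn : ‖(K j : ℂ)‖ = (K j : ℝ) := by simp
  rw [hKn]
  have h7 : ‖u‖ ^ 3 * (((3:ℕ).succ : ℝ) * (((3:ℕ).factorial : ℝ) * ((3:ℕ):ℝ))⁻¹) ≤ ‖u‖ ^ 3 := by
    have : (((3:ℕ).succ : ℝ) * (((3:ℕ).factorial : ℝ) * ((3:ℕ):ℝ))⁻¹) ≤ 1 := by
      norm_num [Nat.factorial]
    exact mul_le_of_le_one_right (by positivity) this
  calc (K j : ℝ) * ‖Complex.exp u - (1 + u + u ^ 2 / 2)‖ ≤ (K j : ℝ) * ‖u‖ ^ 3 :=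
        mul_le_mul_of_nonneg_left (hb1.trans h7) hKpos.le
    _ = ((K j : ℝ) * ‖u‖ ^ 2) * ‖u‖ := by ring
    _ = |y| ^ 2 * (|y| / √(K j : ℝ)) := by
      rw [hun, div_pow, Real.sq_sqrt hKpos.le]
      field_simp

/-! ### the characteristic function of one summand -/

theorem phi_lim {S : Type} [Fintype S] [Nonempty S] (y : S → ℝ) (hy : ∑ s, y s = 0) {K : ℕ → ℕ}
    (hK : Tendsto K atTop atTop) (p : ℕ → S → ℝ) (hp : ∀ j, ∑ s, p j s = 1)
    (hpl : ∀ s, Tendsto (fun j => √(K j : ℝ) * |p j s - 1 / Fintype.card S|) atTop (𝓝 0)) :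
    Tendsto (fun j => (∑ s, (p j s : ℂ) * Complex.exp ((y s / √(K j : ℝ) : ℝ) * Complex.I)) ^ (K j))
      atTop (𝓝 (Complex.exp (-((∑ s, y s ^ 2 : ℝ) : ℂ) / (Fintype.card S) / 2))) := by
  have hs : Tendsto (fun j => √(K j : ℝ)) atTop atTop :=
    Real.tendsto_sqrt_atTop.comp (tendsto_natCast_atTop_atTop.comp hK)
  set z : ℕ → ℂ := fun j => (∑ s, (p j s : ℂ) * Complex.exp ((y s / √(K j : ℝ) : ℝ) * Complex.I)) - 1
    with hz
  have e1 : ∀ j, (∑ s, (p j s : ℂ) * Complex.exp ((y s / √(K j : ℝ) : ℝ) * Complex.I)) ^ (K j) =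
      (1 + z j) ^ (K j) := by
    intro j
    rw [hz]
    congr 1
    ring
  simp only [e1]
  apply pow_lim hK
  have hpc : ∀ s, Tendsto (fun j => (p j s : ℂ)) atTop (𝓝 ((1 / Fintype.card S : ℝ) : ℂ)) := by
    intro s
    refine (Complex.continuous_ofReal.tendsto _).comp ?_
    rw [tendsto_iff_norm_sub_tendsto_zero]
    refine squeeze_zero' (Eventually.of_forall fun j => norm_nonneg _) ?_ (hpl s)
    filter_upwards [hs.eventually_ge_atTop 1] with j hj
    rw [Real.norm_eq_abs]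
    exact le_mul_of_one_le_left (abs_nonneg _) hj
  have e2 : ∀ᶠ j in atTop, (∑ s, (p j s : ℂ) * ((K j : ℂ) *
      (Complex.exp ((y s / √(K j : ℝ) : ℝ) * Complex.I) - 1 - (y s / √(K j : ℝ) : ℝ) * Complex.I))) +
      (∑ s, ((√(K j : ℝ) * (p j s - 1 / Fintype.card S) * y s : ℝ) : ℂ)) * Complex.I =
      (K j : ℂ) * z j := by
    filter_upwards [hK.eventually_ge_atTop 1] with j hj
    have hKpos : (0:ℝ) < K j := by exact_mod_cast hj
    have hsp : 0 < √(K j : ℝ) := Real.sqrt_pos.2 hKpos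
    have h1 : (1 : ℂ) = ∑ s, (p j s : ℂ) := by
      rw [← Complex.ofReal_sum, hp j, Complex.ofReal_one]
    have h2 : (∑ s, ((√(K j : ℝ) * (p j s - 1 / Fintype.card S) * y s : ℝ) : ℂ)) =
        ∑ s, (p j s : ℂ) * ((K j : ℂ) * (y s / √(K j : ℝ) : ℝ)) := by
      have h3 : ∑ s, (√(K j : ℝ) * (p j s - 1 / Fintype.card S) * y s) =
          ∑ s, p j s * ((K j : ℝ) * (y s / √(K j : ℝ))) := by
        have h4 : ∀ s, √(K j : ℝ) * (p j s - 1 / Fintype.card S) * y s =
            p j s * ((K j : ℝ) * (y s / √(K j : ℝ))) - (√(K j : ℝ) / Fintype.card S) * y s := by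
          intro s
          have h5 : (K j : ℝ) * (y s / √(K j : ℝ)) = √(K j : ℝ) * y s := by
            rw [mul_div_assoc', div_eq_iff hsp.ne']
            nth_rewrite 1 [← Real.mul_self_sqrt hKpos.le]
            ring
          rw [h5]
          ring
        rw [Finset.sum_congr rfl fun s _ => h4 s, Finset.sum_sub_distrib, ← Finset.mul_sum, hy,
          mul_zero, sub_zero]
      rw [← Complex.ofReal_sum, h3]
      push_cast
      rfl
    rw [h2, hz, Finset.sum_mul, ← Finset.sum_add_distrib]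
    have h12 : (∑ s, (p j s : ℂ) * Complex.exp ((y s / √(K j : ℝ) : ℝ) * Complex.I)) - 1 =
        ∑ s, (p j s : ℂ) * (Complex.exp ((y s / √(K j : ℝ) : ℝ) * Complex.I) - 1) := by
      simp only [mul_sub, mul_one, Finset.sum_sub_distrib]
      rw [← h1]
    simp only
    rw [h12, Finset.mul_sum]
    refine Finset.sum_congr rfl fun s _ => ?_
    ring
  refine Tendsto.congr' e2 ?_
  have h8 : Tendsto (fun j => ∑ s, (p j s : ℂ) * ((K j : ℂ) *
      (Complex.exp ((y s / √(K j : ℝ) : ℝ) * Complex.I) - 1 - (y s / √(K j : ℝ) : ℝ) * Complex.I)))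
      atTop (𝓝 (∑ s, ((1 / Fintype.card S : ℝ) : ℂ) * (-(y s : ℂ) ^ 2 / 2))) :=
    tendsto_finsetSum _ fun s _ => (hpc s).mul (exp_lim hK (y s))
  have h9 : Tendsto (fun j => (∑ s, ((√(K j : ℝ) * (p j s - 1 / Fintype.card S) * y s : ℝ) : ℂ)) *
      Complex.I) atTop (𝓝 ((∑ _s : S, ((0:ℝ) : ℂ)) * Complex.I)) := by
    refine Tendsto.mul_const _ (tendsto_finsetSum _ fun s _ => ?_)
    refine (Complex.continuous_ofReal.tendsto _).comp ?_
    rw [tendsto_zero_iff_norm_tendsto_zero]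
    have h10 := (hpl s).mul_const |y s|
    rw [zero_mul] at h10
    refine h10.congr fun j => ?_
    rw [Real.norm_eq_abs, abs_mul, abs_mul, abs_of_nonneg (Real.sqrt_nonneg _)]
  have h11 := h8.add h9
  have e3 : (∑ s, ((1 / Fintype.card S : ℝ) : ℂ) * (-(y s : ℂ) ^ 2 / 2)) +
      (∑ _s : S, ((0:ℝ) : ℂ)) * Complex.I =
      -((∑ s, y s ^ 2 : ℝ) : ℂ) / (Fintype.card S) / 2 := by
    simp only [Complex.ofReal_zero, Finset.sum_const_zero, zero_mul, add_zero]
    push_cast
    rw [← Finset.mul_sum, ← Finset.sum_div, Finset.sum_neg_distrib]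
    ring
  rw [e3] at h11
  exact h11

/-! ### the laws -/

section law

variable (W : ℕ) [NeZero W] (K : ℕ) (p : ZMod W → ℝ)

/-- the law of the vector of the counts -/
noncomputable def lw : Measure (EuclideanSpace ℝ (ZMod W)) :=
  ∑ t : Fin K → ZMod W, ENNReal.ofReal (∏ i, p (t i)) • Measure.dirac (xv W t)

theorem sum_prod (hp1 : ∑ t, p t = 1) : ∑ t : Fin K → ZMod W, ∏ i, p (t i) = 1 := by
  have := Finset.prod_univ_sum (fun _ : Fin K => (univ : Finset (ZMod W))) (fun _ t => p t)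
  rw [Fintype.piFinset_univ] at this
  rw [← this, Finset.prod_const, hp1, one_pow]

theorem lw_prob (hp0 : ∀ t, 0 ≤ p t) (hp1 : ∑ t, p t = 1) : IsProbabilityMeasure (lw W K p) := by
  constructor
  unfold lw
  simp only [Measure.coe_finsetSum, Finset.sum_apply, Measure.smul_apply, measure_univ,
    smul_eq_mul, mul_one]
  rw [← ENNReal.ofReal_sum_of_nonneg (fun t _ => Finset.prod_nonneg fun i _ => hp0 _),
    sum_prod W K p hp1, ENNReal.ofReal_one]

theorem integral_lw {E : Type} [NormedAddCommGroup E] [NormedSpace ℝ E] [CompleteSpace E]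
    (hp0 : ∀ t, 0 ≤ p t) (f : EuclideanSpace ℝ (ZMod W) → E) :
    ∫ x, f x ∂(lw W K p) = ∑ t : Fin K → ZMod W, (∏ i, p (t i)) • f (xv W t) := by
  unfold lw
  rw [integral_finsetSum_measure]
  · refine Finset.sum_congr rfl fun t _ => ?_
    rw [integral_smul_measure, integral_dirac, ENNReal.toReal_ofReal]
    exact Finset.prod_nonneg fun i _ => hp0 _
  · intro t _
    exact (integrable_dirac (by simp)).smul_measure ENNReal.ofReal_ne_top

/-- the one-dimensional summand -/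
noncomputable def yy (x : EuclideanSpace ℝ (ZMod W)) (s : ZMod W) : ℝ :=
  -∑ c, x c * (bta W * un (c + s) - 1)

theorem bta_pos : 0 < bta W := by
  have h1 : (0:ℝ) < (Nat.totient W : ℝ) := by
    exact_mod_cast Nat.totient_pos.2 (Nat.pos_of_ne_zero (NeZero.ne W))
  exact div_pos (W_pos W) h1

theorem sum_yy (x : EuclideanSpace ℝ (ZMod W)) : ∑ s, yy W x s = 0 := by
  unfold yy
  rw [Finset.sum_neg_distrib, Finset.sum_comm]
  have h : ∀ c : ZMod W, ∑ s, x c * (bta W * un (c + s) - 1) = 0 := by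
    intro c
    rw [← Finset.mul_sum, Finset.sum_sub_distrib, ← Finset.mul_sum, sum_un, bta_mul]
    simp
  rw [Finset.sum_congr rfl fun c _ => h c, Finset.sum_const_zero, neg_zero]

theorem inner_xv (x : EuclideanSpace ℝ (ZMod W)) (t : Fin K → ZMod W) :
    inner ℝ (xv W t) x = ∑ i, yy W x (t i) / √(K : ℝ) := by
  unfold xv yy
  simp only [PiLp.inner_apply, RCLike.inner_apply, conj_trivial]
  have hb := bta_pos W
  have e1 : ∀ c : ZMod W, x c * (-(bta W / √(K : ℝ)) * ∑ i, (un (c + t i) - 1 / bta W)) =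
      ∑ i, -(x c * (bta W * un (c + t i) - 1)) / √(K : ℝ) := by
    intro c
    rw [Finset.mul_sum, Finset.mul_sum]
    refine Finset.sum_congr rfl fun i _ => ?_
    field_simp
  rw [Finset.sum_congr rfl fun c _ => e1 c, Finset.sum_comm]
  refine Finset.sum_congr rfl fun i _ => ?_
  rw [← Finset.sum_div, Finset.sum_neg_distrib]

theorem charFun_lw (hp0 : ∀ t, 0 ≤ p t) (x : EuclideanSpace ℝ (ZMod W)) :
    charFun (lw W K p) x =
      (∑ s, (p s : ℂ) * Complex.exp ((yy W x s / √(K : ℝ) : ℝ) * Complex.I)) ^ K := by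
  rw [charFun_apply, integral_lw W K p hp0]
  have h1 := Finset.prod_univ_sum (fun _ : Fin K => (univ : Finset (ZMod W)))
    (fun _ s => (p s : ℂ) * Complex.exp ((yy W x s / √(K : ℝ) : ℝ) * Complex.I))
  rw [Fintype.piFinset_univ, Finset.prod_const, Finset.card_univ, Fintype.card_fin] at h1
  rw [h1]
  refine Finset.sum_congr rfl fun t _ => ?_
  rw [inner_xv, Finset.prod_mul_distrib, ← Complex.exp_sum, Complex.real_smul]
  push_cast
  rw [Finset.sum_mul]

theorem charFun_normal (x : EuclideanSpace ℝ (ZMod W)) :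
    charFun (multivariateGaussian 0 (cov W)) x =
      Complex.exp (-((∑ s, yy W x s ^ 2 : ℝ) : ℂ) / (Fintype.card (ZMod W)) / 2) := by
  rw [charFun_multivariateGaussian (psd W), inner_zero_right]
  congr 1
  have h1 : (x : ZMod W → ℝ) ⬝ᵥ (cov W).mulVec x = (∑ s, yy W x s ^ 2) / (Fintype.card (ZMod W)) := by
    have e1 : ∀ s, yy W x s ^ 2 = ∑ c, ∑ c', x c * ((bta W * un (c + s) - 1) *
        (bta W * un (c' + s) - 1)) * x c' := by
      intro s
      unfold yy
      rw [neg_sq, sq, Finset.sum_mul_sum]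
      refine Finset.sum_congr rfl fun c _ => Finset.sum_congr rfl fun c' _ => ?_
      ring
    rw [Finset.sum_congr rfl fun s _ => e1 s, Finset.sum_comm, Finset.sum_div]
    simp only [dotProduct, Matrix.mulVec, Finset.mul_sum]
    refine Finset.sum_congr rfl fun c _ => ?_
    rw [Finset.sum_comm, Finset.sum_div]
    refine Finset.sum_congr rfl fun c' _ => ?_
    rw [cov_eq, ZMod.card, ← Finset.sum_mul, ← Finset.mul_sum]
    ring
  have h2 : ((x : ZMod W → ℝ) ⬝ᵥ (cov W).mulVec x : ℝ) = (∑ s, yy W x s ^ 2) / (Fintype.card (ZMod W)) := h1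
  simp only [Complex.ofReal_zero, zero_mul, zero_sub]
  rw [h2]
  push_cast
  ring

end law

theorem clt_of_seq (W : ℕ) [NeZero W] (f : EuclideanSpace ℝ (ZMod W) → ℝ) (hf : Continuous f)
    (hb : ∃ C, ∀ x, |f x| ≤ C) (K : ℕ → ℕ) (p : ℕ → ZMod W → ℝ) (hK : Tendsto K atTop atTop)
    (hp0 : ∀ j t, 0 ≤ p j t) (hp1 : ∀ j, ∑ t, p j t = 1)
    (hpl : ∀ t, Tendsto (fun j => √(K j : ℝ) * |p j t - 1 / W|) atTop (𝓝 0)) :
    Tendsto (fun j => ∑ t : Fin (K j) → ZMod W, (∏ i, p j (t i)) * f (xv W t)) atTop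
      (𝓝 (∫ x, f x ∂(multivariateGaussian 0 (cov W)))) := by
  have hprob := fun j => lw_prob W (K j) (p j) (hp0 j) (hp1 j)
  let μ : ℕ → ProbabilityMeasure (EuclideanSpace ℝ (ZMod W)) := fun j => ⟨lw W (K j) (p j), hprob j⟩
  let μ₀ : ProbabilityMeasure (EuclideanSpace ℝ (ZMod W)) :=
    ⟨multivariateGaussian 0 (cov W), inferInstance⟩
  have h1 : Tendsto μ atTop (𝓝 μ₀) := by
    rw [ProbabilityMeasure.tendsto_iff_tendsto_charFun]
    intro x
    have h2 := phi_lim (yy W x) (sum_yy W x) hK p hp1 (by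
      intro s
      have := hpl s
      rwa [← ZMod.card W] at this)
    simp only [μ, μ₀, ProbabilityMeasure.coe_mk]
    rw [charFun_normal]
    refine h2.congr fun j => ?_
    rw [charFun_lw W (K j) (p j) (hp0 j)]
  obtain ⟨C, hC⟩ := hb
  let g : BoundedContinuousFunction (EuclideanSpace ℝ (ZMod W)) ℝ :=
    BoundedContinuousFunction.ofNormedAddCommGroup f hf C hC
  have h3 := (ProbabilityMeasure.tendsto_iff_forall_integral_tendsto.1 h1) g
  refine h3.congr fun j => ?_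
  have h4 := integral_lw W (K j) (p j) (hp0 j) f
  simp only [smul_eq_mul] at h4
  exact h4

theorem clt : S_Clt := by
  intro W _ f hf hb ε hε
  by_contra hcon
  push Not at hcon
  have h1 : ∀ j : ℕ, (0:ℝ) < 1 / ((j : ℝ) + 1) := fun j => by positivity
  choose K p hK hp0 hp1 hpl hbad using fun j : ℕ => hcon (1 / ((j : ℝ) + 1)) (h1 j)
  have hKt : Tendsto K atTop atTop := by
    rw [← tendsto_natCast_atTop_iff (R := ℝ)]
    refine tendsto_atTop_mono (f := fun j : ℕ => (j : ℝ)) (fun j => ?_) tendsto_natCast_atTop_atTop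
    have := hK j
    rw [one_div_one_div] at this
    linarith
  have hl : Tendsto (fun j : ℕ => 1 / ((j : ℝ) + 1)) atTop (𝓝 0) :=
    tendsto_one_div_add_atTop_nhds_zero_nat
  have h2 := clt_of_seq W f hf hb K p hKt hp0 hp1 (fun t =>
    squeeze_zero (fun j => mul_nonneg (Real.sqrt_nonneg _) (abs_nonneg _)) (fun j => hpl j t) hl)
  rw [Metric.tendsto_atTop] at h2
  obtain ⟨N, hN⟩ := h2 ε hε
  have h3 := hN N le_rfl
  rw [Real.dist_eq] at h3
  have h4 := hbad N
  linarith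

end Pool.Agent.Q280.GC
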