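import Pool.Agent.Q145.GC.Spec

set_option autoImplicit false

/-! Jobs GC1: the covariance matrix, exponential moments. -/

namespace Pool.Agent.Q280.GC

open Finset MeasureTheory ProbabilityTheory Filter Topology Pool.Agent.Q145.GC

open scoped Classical

theorem card_unit (W : ℕ) [NeZero W] :
    (univ.filter fun t : ZMod W => IsUnit t).card = Nat.totient W := by
  rw [← ZMod.card_units_eq_totient W, ← Finset.card_univ,
    ← Finset.card_image_of_injective (univ : Finset (ZMod W)ˣ)
      (f := (Units.val : (ZMod W)ˣ → ZMod W)) (fun a b h => Units.ext h)]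
  congr 1
  ext t
  simp only [mem_filter, mem_univ, true_and, mem_image]
  exact Iff.rfl

theorem sum_un (W : ℕ) [NeZero W] (c : ZMod W) : ∑ t : ZMod W, un (c + t) = (Nat.totient W : ℝ) := by
  rw [Fintype.sum_equiv (Equiv.addLeft c) (fun t => un (c + t)) (fun t => un t) (fun t => rfl)]
  have h1 : ∀ t : ZMod W, un t = if t ∈ (univ.filter fun t : ZMod W => IsUnit t) then (1:ℝ) else 0 := by
    intro t
    unfold un
    simp
  rw [Finset.sum_congr rfl fun t _ => h1 t, Finset.sum_ite_mem, Finset.univ_inter, Finset.sum_const,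
    card_unit, nsmul_eq_mul, mul_one]

theorem bta_mul (W : ℕ) [NeZero W] : bta W * (Nat.totient W : ℝ) = W := by
  have h1 : (0:ℝ) < (Nat.totient W : ℝ) := by
    exact_mod_cast Nat.totient_pos.2 (Nat.pos_of_ne_zero (NeZero.ne W))
  unfold bta
  field_simp

theorem W_pos (W : ℕ) [NeZero W] : (0:ℝ) < (W : ℝ) := by
  exact_mod_cast Nat.pos_of_ne_zero (NeZero.ne W)

theorem cov_eq (W : ℕ) [NeZero W] (c c' : ZMod W) :
    cov W c c' = (∑ t : ZMod W, (bta W * un (c + t) - 1) * (bta W * un (c' + t) - 1)) / W := by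
  have e1 : ∀ t : ZMod W, (bta W * un (c + t) - 1) * (bta W * un (c' + t) - 1) =
      bta W ^ 2 * (un (c + t) * un (c' + t)) - bta W * un (c + t) - bta W * un (c' + t) + 1 := by
    intro t; ring
  rw [Finset.sum_congr rfl fun t _ => e1 t, Finset.sum_add_distrib, Finset.sum_sub_distrib,
    Finset.sum_sub_distrib, ← Finset.mul_sum, ← Finset.mul_sum, ← Finset.mul_sum, sum_un, sum_un,
    bta_mul]
  simp only [Finset.sum_const, Finset.card_univ, ZMod.card, nsmul_eq_mul, mul_one]
  have := W_pos W
  unfold cov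
  field_simp
  ring

theorem psd : S_Psd := by
  intro W _
  have h : cov W = (Matrix.of fun t c : ZMod W => (bta W * un (c + t) - 1) / √(W:ℝ)).conjTranspose *
      (Matrix.of fun t c : ZMod W => (bta W * un (c + t) - 1) / √(W:ℝ)) := by
    ext c c'
    rw [cov_eq, Matrix.mul_apply, Finset.sum_div]
    refine Finset.sum_congr rfl fun t _ => ?_
    simp only [Matrix.conjTranspose_apply, Matrix.of_apply, star_trivial]
    have hW := W_pos W
    rw [div_mul_div_comm, Real.mul_self_sqrt hW.le]
  rw [h]
  exact Matrix.posSemidef_conjTranspose_mul_self _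

theorem exp_mom : S_Exp := by
  intro ι _ _ S hS a
  set M := multivariateGaussian (0 : EuclideanSpace ℝ ι) S with hM
  set L : StrongDual ℝ (EuclideanSpace ℝ ι) := innerSL ℝ (WithLp.toLp 2 a) with hL
  have hLg : ∀ g : EuclideanSpace ℝ ι, L g = ∑ i, a i * g i := by
    intro g
    rw [hL]
    simp only [innerSL_apply_apply, PiLp.inner_apply]
    refine Finset.sum_congr rfl fun i _ => ?_
    simp [mul_comm]
  have hmap := IsGaussian.map_eq_gaussianReal (μ := M) L
  have hmean : ∫ x, L x ∂M = 0 := by
    rw [L.integral_comp_id_comm IsGaussian.integrable_id, hM, integral_id_multivariateGaussian,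
      map_zero]
  have hvar : Var[L; M] = ∑ i, ∑ j, a i * a j * S i j := by
    rw [← covariance_self (by fun_prop)]
    have e1 : (fun u : EuclideanSpace ℝ ι => L u) = fun u => inner ℝ (WithLp.toLp 2 a) u := rfl
    have e2 := covarianceBilin_apply_eq_cov (μ := M) IsGaussian.memLp_two_id
      (WithLp.toLp 2 a) (WithLp.toLp 2 a)
    rw [hM, covarianceBilin_multivariateGaussian hS] at e2
    refine Eq.trans e2.symm ?_
    simp only [dotProduct, Matrix.mulVec, Finset.mul_sum]
    refine Finset.sum_congr rfl fun i _ => Finset.sum_congr rfl fun j _ => ?_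
    ring
  have hmgf := mgf_gaussianReal hmap 1
  have hv0 : 0 ≤ Var[L; M] := variance_nonneg _ _
  rw [Real.coe_toNNReal _ hv0, hmean, hvar] at hmgf
  simp only [mul_one, zero_add, one_pow] at hmgf
  have hpos : 0 < mgf L M 1 := by rw [hmgf]; exact Real.exp_pos _
  have hint := mgf_pos_iff.1 hpos
  unfold mgf at hmgf
  simp only [one_mul, hLg] at hint hmgf
  exact ⟨hint, hmgf⟩

end Pool.Agent.Q280.GC
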